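import Pool.Agent.Helper95.Lin.Basics
import Pool.Agent.Helper95.Lin.GoalsA

/-! Packet LALG -/

open Complex Metric Set Filter Topology MeasureTheory
open scoped ContDiff ComplexConjugate ComplexOrder

set_option linter.all false

namespace Pool.Agent.Helper31.Lin

open Pool.Agent.Helper95.Lin

variable {b : ℕ} {D : Set (Cn b)}

/-- fields holomorphic on `D` and zero off `D` -/
def HF (D : Set (Cn b)) (V : Cn b → Cn b) : Prop := DifferentiableOn ℂ V D ∧ ∀ z, z ∉ D → V z = 0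

lemma HF.at' {V : Cn b → Cn b} (hV : HF D V) (hD : IsOpen D) {z : Cn b} (hz : z ∈ D) :
    DifferentiableAt ℂ V z := hV.1.differentiableAt (hD.mem_nhds hz)

lemma HF.cd {V : Cn b → Cn b} (hV : HF D V) (hD : IsOpen D) {z : Cn b} (hz : z ∈ D) :
    ContDiffAt ℂ 2 V z :=
  by exact_mod_cast (holo_contDiffOn_nat hD 2 hV.1).contDiffAt (hD.mem_nhds hz)

lemma brV_off {V W : Cn b → Cn b} (hV : HF D V) (hW : HF D W) {z : Cn b} (hz : z ∉ D) :
    brV V W z = 0 := by
  simp [brV, hV.2 z hz, hW.2 z hz]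

lemma brV_eq (V W : Cn b → Cn b) : brV V W = VectorField.lieBracket ℂ V W := rfl

lemma HF.add {V W : Cn b → Cn b} (hV : HF D V) (hW : HF D W) : HF D (V + W) :=
  ⟨hV.1.add hW.1, fun z hz => by rw [Pi.add_apply, hV.2 z hz, hW.2 z hz, add_zero]⟩

lemma HF.smul {V : Cn b → Cn b} (hV : HF D V) (r : ℝ) : HF D (r • V) :=
  ⟨hV.1.const_smul r, fun z hz => by rw [Pi.smul_apply, hV.2 z hz, smul_zero]⟩

lemma brV_add_left (hD : IsOpen D) {V V' W : Cn b → Cn b} (hV : HF D V) (hV' : HF D V')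
    (hW : HF D W) : brV (V + V') W = brV V W + brV V' W := by
  funext z
  by_cases hz : z ∈ D
  · rw [Pi.add_apply]
    exact VectorField.lieBracket_add_left (hV.at' hD hz) (hV'.at' hD hz)
  · rw [Pi.add_apply, brV_off (hV.add hV') hW hz, brV_off hV hW hz, brV_off hV' hW hz, add_zero]

lemma brV_add_right (hD : IsOpen D) {V W W' : Cn b → Cn b} (hV : HF D V) (hW : HF D W)
    (hW' : HF D W') : brV V (W + W') = brV V W + brV V W' := by
  funext z
  by_cases hz : z ∈ D
  · rw [Pi.add_apply]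
    exact VectorField.lieBracket_add_right (hW.at' hD hz) (hW'.at' hD hz)
  · rw [Pi.add_apply, brV_off hV (hW.add hW') hz, brV_off hV hW hz, brV_off hV hW' hz, add_zero]

lemma brV_self (V : Cn b → Cn b) : brV V V = 0 := by
  rw [brV_eq, VectorField.lieBracket_self]

lemma brV_smul_right (hD : IsOpen D) {V W : Cn b → Cn b} (hV : HF D V) (hW : HF D W) (r : ℝ) :
    brV V (r • W) = r • brV V W := by
  funext z
  by_cases hz : z ∈ D
  · rw [Pi.smul_apply]
    unfold brV
    rw [fderiv_const_smul (hW.at' hD hz), Pi.smul_apply, smul_sub,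
      ContinuousLinearMap.map_smul_of_tower]
    rfl
  · rw [Pi.smul_apply, brV_off hV (hW.smul r) hz, brV_off hV hW hz, smul_zero]

lemma HF.br (hD : IsOpen D) {V W : Cn b → Cn b} (hV : HF D V) (hW : HF D W) : HF D (brV V W) := by
  refine ⟨?_, fun z hz => brV_off hV hW hz⟩
  unfold brV
  exact ((holo_fderiv hD hW.1).clm_apply hV.1).sub ((holo_fderiv hD hV.1).clm_apply hW.1)

lemma brV_leib (hD : IsOpen D) {U V W : Cn b → Cn b} (hU : HF D U) (hV : HF D V) (hW : HF D W) :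
    brV U (brV V W) = brV (brV U V) W + brV V (brV U W) := by
  funext z
  by_cases hz : z ∈ D
  · rw [Pi.add_apply]
    exact VectorField.leibniz_identity_lieBracket (𝕜 := ℂ) (n := 2) (by simp) (hU.cd hD hz)
      (hV.cd hD hz) (hW.cd hD hz)
  · rw [Pi.add_apply, brV_off hU (hV.br hD hW) hz, brV_off (hU.br hD hV) hW hz,
      brV_off hV (hU.br hD hW) hz, add_zero]

section ad

variable {Γ : Type} [Group Γ] {g : Γ → Cn b → Cn b}

lemma g_at (hg : GAct D g) (γ : Γ) {z : Cn b} (hz : z ∈ D) : DifferentiableAt ℂ (g γ) z :=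
  (hg.holo γ).differentiableAt (hg.isOpen.mem_nhds hz)

lemma comp_id (hg : GAct D g) (γ : Γ) {z : Cn b} (hz : z ∈ D) :
    (fderiv ℂ (g γ) (g γ⁻¹ z)).comp (fderiv ℂ (g γ⁻¹) z) = ContinuousLinearMap.id ℂ (Cn b) := by
  have h1 := (g_at hg γ (hg.maps γ⁻¹ z hz)).hasFDerivAt.comp z (g_at hg γ⁻¹ hz).hasFDerivAt
  have h2 : HasFDerivAt (g γ ∘ g γ⁻¹) (ContinuousLinearMap.id ℂ (Cn b)) z := by
    refine (hasFDerivAt_id z).congr_of_eventuallyEq ?_
    filter_upwards [hg.isOpen.mem_nhds hz] with y hy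
    exact hg.inv_right γ hy
  exact h1.unique h2

lemma comp_id' (hg : GAct D g) (γ : Γ) {z : Cn b} (hz : z ∈ D) :
    (fderiv ℂ (g γ⁻¹) z).comp (fderiv ℂ (g γ) (g γ⁻¹ z)) = ContinuousLinearMap.id ℂ (Cn b) := by
  have h1 := comp_id hg γ⁻¹ (hg.maps γ⁻¹ z hz)
  rw [inv_inv, hg.inv_right γ hz] at h1
  exact h1

lemma AdV_eq (hg : GAct D g) (γ : Γ) (V : Cn b → Cn b) {z : Cn b} (hz : z ∈ D) :
    AdV D g γ V z = VectorField.pullback ℂ (g γ⁻¹) V z := by
  unfold AdV VectorField.pullback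
  rw [indicator_of_mem hz, ContinuousLinearMap.inverse_eq (comp_id' hg γ hz) (comp_id hg γ hz)]

lemma AdV_off (γ : Γ) (V : Cn b → Cn b) {z : Cn b} (hz : z ∉ D) : AdV D g γ V z = 0 := by
  unfold AdV
  rw [indicator_of_notMem hz]

lemma AdV_add (γ : Γ) (V W : Cn b → Cn b) : AdV D g γ (V + W) = AdV D g γ V + AdV D g γ W := by
  funext z
  by_cases hz : z ∈ D
  · unfold AdV
    rw [Pi.add_apply, indicator_of_mem hz, indicator_of_mem hz, indicator_of_mem hz, Pi.add_apply,
      map_add]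
  · rw [Pi.add_apply, AdV_off _ _ hz, AdV_off _ _ hz, AdV_off _ _ hz, add_zero]

lemma AdV_smul (γ : Γ) (V : Cn b → Cn b) (r : ℝ) : AdV D g γ (r • V) = r • AdV D g γ V := by
  funext z
  by_cases hz : z ∈ D
  · unfold AdV
    rw [Pi.smul_apply, indicator_of_mem hz, indicator_of_mem hz, Pi.smul_apply,
      ContinuousLinearMap.map_smul_of_tower]
  · rw [Pi.smul_apply, AdV_off _ _ hz, AdV_off _ _ hz, smul_zero]

lemma AdV_one (hg : GAct D g) {V : Cn b → Cn b} (hV : HF D V) : AdV D g 1 V = V := by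
  funext z
  by_cases hz : z ∈ D
  · unfold AdV
    rw [indicator_of_mem hz, inv_one, hg.one z hz]
    have h2 : HasFDerivAt (g 1) (ContinuousLinearMap.id ℂ (Cn b)) z := by
      refine (hasFDerivAt_id z).congr_of_eventuallyEq ?_
      filter_upwards [hg.isOpen.mem_nhds hz] with y hy
      exact hg.one y hy
    rw [h2.fderiv]
    rfl
  · rw [AdV_off _ _ hz, hV.2 z hz]

lemma AdV_mul (hg : GAct D g) (γ γ' : Γ) (V : Cn b → Cn b) :
    AdV D g (γ * γ') V = AdV D g γ (AdV D g γ' V) := by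
  funext z
  by_cases hz : z ∈ D
  · have hz' := hg.maps γ⁻¹ z hz
    have hz'' := hg.maps γ'⁻¹ _ hz'
    unfold AdV
    rw [indicator_of_mem hz, indicator_of_mem hz, indicator_of_mem hz', mul_inv_rev,
      hg.mul _ _ z hz]
    have h1 : HasFDerivAt (g (γ * γ')) ((fderiv ℂ (g γ) (g γ⁻¹ z)).comp
        (fderiv ℂ (g γ') (g γ'⁻¹ (g γ⁻¹ z)))) (g γ'⁻¹ (g γ⁻¹ z)) := by
      have h2 := (g_at hg γ' hz'').hasFDerivAt
      have h3 := (g_at hg γ hz').hasFDerivAt
      rw [← hg.inv_right γ' hz'] at h3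
      have h4 := h3.comp _ h2
      rw [hg.inv_right γ' hz'] at h4
      refine h4.congr_of_eventuallyEq ?_
      filter_upwards [hg.isOpen.mem_nhds hz''] with y hy
      exact hg.mul _ _ y hy
    rw [h1.fderiv]
    rfl
  · rw [AdV_off _ _ hz, AdV_off _ _ hz]

lemma AdV_br (hg : GAct D g) (γ : Γ) {V W : Cn b → Cn b} (hV : HF D V) (hW : HF D W) :
    AdV D g γ (brV V W) = brV (AdV D g γ V) (AdV D g γ W) := by
  funext z
  by_cases hz : z ∈ D
  · have hz' := hg.maps γ⁻¹ z hz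
    have hcd : ContDiffAt ℂ 2 (g γ⁻¹) z := by
      exact_mod_cast (holo_contDiffOn_nat hg.isOpen 2 (hg.holo γ⁻¹)).contDiffAt
        (hg.isOpen.mem_nhds hz)
    rw [AdV_eq hg γ _ hz, brV_eq]
    rw [VectorField.pullback_lieBracket (𝕜 := ℂ) (n := 2) (by simp) hcd
      (hV.at' hg.isOpen hz') (hW.at' hg.isOpen hz')]
    rw [brV_eq]
    apply Filter.EventuallyEq.lieBracket_vectorField_eq
    · filter_upwards [hg.isOpen.mem_nhds hz] with y hy
      exact (AdV_eq hg γ V hy).symm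
    · filter_upwards [hg.isOpen.mem_nhds hz] with y hy
      exact (AdV_eq hg γ W hy).symm
  · rw [AdV_off _ _ hz]
    simp [brV, AdV_off _ _ hz]

end ad

theorem lalg (hL : S_LADD) (hB : S_BRL) (hA : S_ADL) (hF : S_FIN) : S_LALG := by
  intro b D Γ _ g h
  have hD : IsOpen D := h.dom.isOpen
  let L : Submodule ℝ (Cn b → Cn b) :=
    { carrier := {V | InL D g V}
      zero_mem' := (hL h).1
      add_mem' := fun {V W} hV hW => (hL h).2.1 V W hV hW
      smul_mem' := fun r V hV => (hL h).2.2 V hV r }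
  have hf : ∀ V : L, HF D V.1 := fun V => ⟨V.2.1, V.2.2.1⟩
  letI lr : LieRing L :=
    { bracket := fun V W => ⟨brV V.1 W.1, hB h _ _ V.2 W.2⟩
      add_lie := fun V V' W => Subtype.ext (brV_add_left hD (hf V) (hf V') (hf W))
      lie_add := fun V W W' => Subtype.ext (brV_add_right hD (hf V) (hf W) (hf W'))
      lie_self := fun V => Subtype.ext (brV_self V.1)
      leibniz_lie := fun U V W => Subtype.ext (brV_leib hD (hf U) (hf V) (hf W)) }
  letI la : LieAlgebra ℝ L :=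
    { lie_smul := fun r V W => Subtype.ext (brV_smul_right hD (hf V) (hf W) r) }
  let ρ : Γ →* (L →ₗ[ℝ] L) :=
    { toFun := fun γ =>
        { toFun := fun V => ⟨AdV D g γ V.1, hA h _ V.2 γ⟩
          map_add' := fun V W => Subtype.ext (AdV_add γ V.1 W.1)
          map_smul' := fun r V => Subtype.ext (AdV_smul γ V.1 r) }
      map_one' := LinearMap.ext fun V => Subtype.ext (AdV_one h.act (hf V))
      map_mul' := fun γ γ' => LinearMap.ext fun V => Subtype.ext (AdV_mul h.act γ γ' V.1) }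
  refine ⟨L, lr, la, L.subtype, ρ, hF h L fun V => Iff.rfl, Subtype.val_injective, ?_, ?_, ?_, ?_⟩
  · intro V
    constructor
    · intro hV
      exact ⟨⟨V, hV⟩, rfl⟩
    · rintro ⟨x, rfl⟩
      exact x.2
  · intro x y
    rfl
  · intro γ x y
    exact Subtype.ext (AdV_br h.act γ (hf x) (hf y))
  · intro γ x
    rfl

end Pool.Agent.Helper31.Lin
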