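import Pool.Agent.Helper95.Lin.Basics
import Pool.Agent.Helper95.Lin.GoalsH

/-! Packet MOLL -/

open Complex Metric Set Filter Topology MeasureTheory
open scoped ContDiff ComplexConjugate ComplexOrder Convolution

set_option linter.all false

namespace Pool.Agent.Helper31.Lin

open Pool.Agent.Helper95.Lin

variable {n : ℕ}

lemma taylor2 {v : Cn n → ℝ} (hv : ContDiff ℝ ∞ v) (x : Cn n) {η : ℝ} (hη : 0 < η) :
    ∃ r > 0, ∀ w : Cn n, ‖w‖ ≤ r →
      |v (x + w) - v x - fderiv ℝ v x w - 1 / 2 * (fderiv ℝ (fderiv ℝ v) x w) w| ≤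
        η * ‖w‖ ^ 2 := by
  have hd : Differentiable ℝ v := hv.differentiable (by simp)
  have hd2 : ContDiff ℝ ∞ (fderiv ℝ v) := hv.fderiv_right (by simp)
  obtain ⟨B, hB⟩ : ∃ B, B = fderiv ℝ (fderiv ℝ v) x := ⟨_, rfl⟩
  have hB' : HasFDerivAt (fderiv ℝ v) B x := by
    rw [hB]; exact (hd2.differentiable (by simp) x).hasFDerivAt
  have hsymm : ∀ a c, B a c = B c a := by
    rw [hB]
    exact ((contDiff_infty.1 hv 2).contDiffAt.isSymmSndFDerivAt (by simp))
  have h1 := hB'.isLittleO
  rw [Asymptotics.isLittleO_iff] at h1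
  obtain ⟨r, hr, h3⟩ := Metric.eventually_nhds_iff_ball.1 (h1 hη)
  refine ⟨r / 2, by positivity, fun w hw => ?_⟩
  rw [← hB]
  let G : Cn n → ℝ := fun w => v (x + w) - v x - fderiv ℝ v x w - 1 / 2 * (B w) w
  have hG : ∀ y, HasFDerivAt G (fderiv ℝ v (x + y) - fderiv ℝ v x - B y) y := by
    intro y
    have e1 : HasFDerivAt (fun w => v (x + w)) (fderiv ℝ v (x + y)) y := by
      have h0 : HasFDerivAt (fun w => x + w) (ContinuousLinearMap.id ℝ (Cn n)) y :=
        (hasFDerivAt_id y).const_add x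
      have := (hd (x + y)).hasFDerivAt.comp y h0
      rw [ContinuousLinearMap.comp_id] at this
      exact this
    have e2 : HasFDerivAt (fun w => (B w) w) ((B y).comp (ContinuousLinearMap.id ℝ _) +
        B.flip y) y := B.hasFDerivAt.clm_apply (hasFDerivAt_id y)
    have e3 := ((e1.sub_const (v x)).sub (fderiv ℝ v x).hasFDerivAt).sub (e2.const_mul (1 / 2))
    have e4 : fderiv ℝ v (x + y) - fderiv ℝ v x - (1 / 2 : ℝ) • ((B y).comp
        (ContinuousLinearMap.id ℝ _) + B.flip y) = fderiv ℝ v (x + y) - fderiv ℝ v x - B y := by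
      congr 1
      ext h
      simp only [ContinuousLinearMap.smul_apply, ContinuousLinearMap.add_apply,
        ContinuousLinearMap.flip_apply, ContinuousLinearMap.comp_apply,
        ContinuousLinearMap.id_apply, hsymm h y, smul_eq_mul]
      ring
    rw [← e4]
    exact e3
  have hb : ∀ y ∈ closedBall (0 : Cn n) ‖w‖, ‖fderiv ℝ v (x + y) - fderiv ℝ v x - B y‖ ≤
      η * ‖w‖ := by
    intro y hy
    have hy' : ‖y‖ ≤ ‖w‖ := by simpa using hy
    have h4 := h3 (x + y) (by simp; linarith)
    rw [add_sub_cancel_left] at h4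
    exact h4.trans (by gcongr)
  have h5 := Convex.norm_image_sub_le_of_norm_hasFDerivWithin_le (f := G) (C := η * ‖w‖)
    (s := closedBall (0 : Cn n) ‖w‖) (x := 0) (y := w) (fun y hy => (hG y).hasFDerivWithinAt) hb
    (convex_closedBall 0 _) (by simp) (by simp)
  have h6 : G 0 = 0 := by simp [G]
  rw [h6, sub_zero, sub_zero, Real.norm_eq_abs] at h5
  calc _ ≤ η * ‖w‖ * ‖w‖ := h5
    _ = _ := by ring

lemma circle_smul (θ : ℝ) (e : Cn n) :
    (circleMap 0 1 θ) • e = Real.cos θ • e + Real.sin θ • (I • e) := by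
  have h : circleMap 0 1 θ = (Real.cos θ : ℂ) + (Real.sin θ : ℂ) * I := by
    rw [circleMap, zero_add, Complex.ofReal_one, one_mul, Complex.exp_mul_I, Complex.ofReal_cos,
      Complex.ofReal_sin]
  rw [h, add_smul, mul_smul]
  rfl

lemma avg_quad (L : Cn n →L[ℝ] ℝ) (B : Cn n →L[ℝ] Cn n →L[ℝ] ℝ) (e : Cn n) :
    Real.circleAverage (fun ζ : ℂ => L (ζ • e) + 1 / 2 * (B (ζ • e)) (ζ • e)) 0 1 =
      1 / 4 * (B e e + B (I • e) (I • e)) := by
  unfold Real.circleAverage
  have h : ∀ θ : ℝ, L ((circleMap 0 1 θ) • e) + 1 / 2 * (B ((circleMap 0 1 θ) • e))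
      ((circleMap 0 1 θ) • e) = (Real.cos θ * L e + Real.sin θ * L (I • e)) +
      (Real.cos θ ^ 2 * (1 / 2 * B e e) + Real.sin θ ^ 2 * (1 / 2 * B (I • e) (I • e)) +
      Real.sin θ * Real.cos θ * (1 / 2 * (B e (I • e) + B (I • e) e))) := by
    intro θ
    rw [circle_smul]
    simp only [map_add, map_smul, ContinuousLinearMap.add_apply, ContinuousLinearMap.smul_apply,
      smul_eq_mul]
    ring
  simp only [h]
  have i1 : IntervalIntegrable (fun θ : ℝ => Real.cos θ * L e + Real.sin θ * L (I • e)) volume 0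
      (2 * Real.pi) := by
    apply Continuous.intervalIntegrable; fun_prop
  have i2 : IntervalIntegrable (fun θ : ℝ => Real.cos θ ^ 2 * (1 / 2 * B e e) +
      Real.sin θ ^ 2 * (1 / 2 * B (I • e) (I • e)) +
      Real.sin θ * Real.cos θ * (1 / 2 * (B e (I • e) + B (I • e) e))) volume 0
      (2 * Real.pi) := by
    apply Continuous.intervalIntegrable; fun_prop
  have i3 : IntervalIntegrable (fun θ : ℝ => Real.cos θ ^ 2 * (1 / 2 * B e e) +
      Real.sin θ ^ 2 * (1 / 2 * B (I • e) (I • e))) volume 0 (2 * Real.pi) := by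
    apply Continuous.intervalIntegrable; fun_prop
  have i4 : ∀ (f : ℝ → ℝ) (c : ℝ), Continuous f → IntervalIntegrable (fun θ => f θ * c) volume 0
      (2 * Real.pi) := fun f c hf => (hf.mul continuous_const).intervalIntegrable _ _
  rw [intervalIntegral.integral_add i1 i2, intervalIntegral.integral_add i3 (i4 _ _ (by fun_prop)),
    intervalIntegral.integral_add (i4 _ _ (by fun_prop)) (i4 _ _ (by fun_prop)),
    intervalIntegral.integral_add (i4 _ _ (by fun_prop)) (i4 _ _ (by fun_prop))]
  simp only [intervalIntegral.integral_mul_const, integral_cos, integral_sin,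
    integral_sin_mul_cos₁, integral_sin_sq, integral_cos_sq, Real.sin_two_pi, Real.sin_zero,
    Real.cos_two_pi, Real.cos_zero, smul_eq_mul]
  have hpi := Real.pi_pos.ne'
  field_simp
  ring

lemma lev_eq {v : Cn n → ℝ} (hv : ContDiff ℝ ∞ v) (x e : Cn n) :
    lev v x e = (fderiv ℝ (fderiv ℝ v) x e) e + (fderiv ℝ (fderiv ℝ v) x (I • e)) (I • e) := by
  have hd2 : ContDiff ℝ ∞ (fderiv ℝ v) := hv.fderiv_right (by simp)
  have h : ∀ a w : Cn n, hess v x a w = (fderiv ℝ (fderiv ℝ v) x a) w := by
    intro a w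
    unfold hess
    have h1 : HasFDerivAt (fderiv ℝ v) (fderiv ℝ (fderiv ℝ v) x) x :=
      (hd2.differentiable (by simp) x).hasFDerivAt
    have h2 := h1.clm_apply (hasFDerivAt_const w x)
    rw [h2.fderiv]
    simp
  unfold lev
  rw [h, h]

lemma lev_nonneg {v : Cn n → ℝ} (hv : ContDiff ℝ ∞ v) (x e : Cn n) {δ : ℝ} (hδ : 0 < δ)
    (h : ∀ τ : ℝ, 0 < τ → τ ≤ δ → v x ≤ Real.circleAverage (fun ζ : ℂ => v (x + ζ • (τ • e))) 0 1) :
    0 ≤ lev v x e := by
  by_contra hc
  push Not at hc
  set q := lev v x e with hq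
  set η := -q / (8 * (‖e‖ ^ 2 + 1)) with hη
  have hηp : 0 < η := by
    rw [hη]
    have : 0 < -q := by linarith
    positivity
  obtain ⟨r, hr, h2⟩ := taylor2 hv x hηp
  obtain ⟨τ, hτ, hτδ, hτr⟩ : ∃ τ : ℝ, 0 < τ ∧ τ ≤ δ ∧ τ * ‖e‖ ≤ r := by
    refine ⟨min δ (r / (‖e‖ + 1)), by positivity, min_le_left _ _, ?_⟩
    calc min δ (r / (‖e‖ + 1)) * ‖e‖ ≤ (r / (‖e‖ + 1)) * (‖e‖ + 1) := by
          gcongr
          · exact min_le_right _ _
          · linarith
      _ = r := by field_simp
  have h3 := h τ hτ hτδ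
  have hcont : Continuous v := hv.continuous
  have h4 : Real.circleAverage (fun ζ : ℂ => v (x + ζ • (τ • e))) 0 1 ≤
      Real.circleAverage (fun ζ : ℂ => (v x + η * (τ * ‖e‖) ^ 2) + (fderiv ℝ v x (ζ • (τ • e)) +
        1 / 2 * (fderiv ℝ (fderiv ℝ v) x (ζ • (τ • e))) (ζ • (τ • e)))) 0 1 := by
    apply Real.circleAverage_mono
    · apply Continuous.continuousOn (by fun_prop) |>.circleIntegrable'
    · apply Continuous.continuousOn (by fun_prop) |>.circleIntegrable'
    · intro ζ hζ
      have hζ1 : ‖ζ‖ = 1 := by simpa using hζ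
      have h5 : ‖ζ • (τ • e)‖ = τ * ‖e‖ := by
        rw [norm_smul, norm_smul, hζ1, one_mul, Real.norm_of_nonneg hτ.le]
      have h6 := h2 (ζ • (τ • e)) (by rw [h5]; exact hτr)
      rw [h5, abs_le] at h6
      linarith [h6.2]
  have h5 : Real.circleAverage (fun ζ : ℂ => (v x + η * (τ * ‖e‖) ^ 2) +
      (fderiv ℝ v x (ζ • (τ • e)) +
        1 / 2 * (fderiv ℝ (fderiv ℝ v) x (ζ • (τ • e))) (ζ • (τ • e)))) 0 1 =
      (v x + η * (τ * ‖e‖) ^ 2) + 1 / 4 * τ ^ 2 * q := by
    rw [Real.circleAverage_fun_add, Real.circleAverage_const, avg_quad, hq, lev_eq hv]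
    · have e1 : I • τ • e = τ • (I • e) := smul_comm _ _ _
      rw [e1]
      simp only [map_smul, ContinuousLinearMap.smul_apply, smul_eq_mul]
      ring
    · exact circleIntegrable_const _ _ _
    · apply Continuous.continuousOn (by fun_prop) |>.circleIntegrable'
  rw [h5] at h4
  have h6 : 0 ≤ τ ^ 2 * (η * ‖e‖ ^ 2 + 1 / 4 * q) := by nlinarith
  have h7 : 0 ≤ η * ‖e‖ ^ 2 + 1 / 4 * q := by
    by_contra h8
    push Not at h8
    have := mul_neg_of_pos_of_neg (pow_pos hτ 2) h8
    linarith
  have h8 : η * ‖e‖ ^ 2 ≤ -q / 8 := by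
    rw [hη, div_mul_eq_mul_div, div_le_div_iff₀ (by positivity) (by norm_num)]
    nlinarith [sq_nonneg ‖e‖]
  linarith

/-- Packet MOLL. -/
theorem S_MOLL : Pool.Agent.Helper95.Lin.S_MOLL := by
  intro n M hM u hu hpsh K hKM hK ε hε
  obtain ⟨δ, hδ, hδM⟩ := hK.exists_cthickening_subset_open hM hKM
  have hK₁ : IsCompact (cthickening δ K) := hK.cthickening
  have huK₁ : ContinuousOn u (cthickening δ K) := hu.mono hδM
  classical
  set g : Cn n → ℝ := (cthickening δ K).indicator u with hg
  have hgm : Measurable g := by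
    have h1 : Measurable ((cthickening δ K).piecewise u 0) :=
      huK₁.measurable_piecewise continuousOn_const isClosed_cthickening.measurableSet
    rw [Set.piecewise_eq_indicator] at h1
    exact h1
  obtain ⟨C, hC0, hC⟩ : ∃ C, 0 ≤ C ∧ ∀ y, |g y| ≤ C := by
    obtain ⟨C, hC⟩ := hK₁.exists_bound_of_continuousOn huK₁
    refine ⟨max C 0, le_max_right _ _, fun y => ?_⟩
    by_cases hy : y ∈ cthickening δ K
    · rw [hg, Set.indicator_of_mem hy]
      exact (hC y hy).trans (le_max_left _ _)
    · rw [hg, Set.indicator_of_notMem hy]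
      simp
  have hgi : Integrable g := by
    rw [hg, integrable_indicator_iff isClosed_cthickening.measurableSet]
    exact huK₁.integrableOn_compact hK₁
  obtain ⟨δ', hδ', h1⟩ : ∃ δ' > 0, ∀ a ∈ cthickening δ K, ∀ b ∈ cthickening δ K,
      dist a b < δ' → dist (u a) (u b) < ε := by
    have := hK₁.uniformContinuousOn_of_continuous huK₁
    rw [Metric.uniformContinuousOn_iff] at this
    exact this ε hε
  set r := min (δ / 2) δ' with hr
  have hrp : 0 < r := by positivity
  let φ : ContDiffBump (0 : Cn n) := ⟨r / 2, r, by positivity, by linarith⟩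
  set ρ : Cn n → ℝ := φ.normed volume with hρ
  have hφr : φ.rOut = r := rfl
  set v : Cn n → ℝ := fun x => ∫ t, ρ t * g (x - t) with hv
  have hv' : v = (ρ ⋆[ContinuousLinearMap.lsmul ℝ ℝ, volume] g) := rfl
  have hvs : ContDiff ℝ ∞ v := by
    rw [hv']
    exact φ.hasCompactSupport_normed.contDiff_convolution_left _ φ.contDiff_normed
      hgi.locallyIntegrable
  have hmem : ∀ x ∈ K, ∀ w : Cn n, ‖w‖ ≤ δ → x + w ∈ cthickening δ K := by
    intro x hx w hw
    apply mem_cthickening_of_dist_le (x + w) x δ K hx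
    simpa using hw
  refine ⟨v, hvs, fun x hx => ?_, fun x hx e => ?_⟩
  · have hxK : x ∈ cthickening δ K := self_subset_cthickening _ hx
    have hgx : g x = u x := Set.indicator_of_mem hxK _
    rw [← hgx, ← Real.dist_eq, hv']
    apply φ.dist_normed_convolution_le hgm.aestronglyMeasurable
    intro y hy
    rw [hφr] at hy
    have hy' : dist y x < r := hy
    have hyK : y ∈ cthickening δ K := by
      have := hmem x hx (y - x) (by
        rw [← dist_eq_norm]
        exact (hy'.le.trans (min_le_left _ _)).trans (by linarith))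
      simpa using this
    have hgy : g y = u y := Set.indicator_of_mem hyK _
    rw [hgx, hgy]
    exact (h1 y hyK x hxK (hy'.trans_le (min_le_right _ _))).le
  · apply lev_nonneg hvs x e (δ := δ / (2 * (‖e‖ + 1))) (by positivity)
    intro τ hτ hτδ
    have hτe : ‖τ • e‖ ≤ δ / 2 := by
      rw [norm_smul, Real.norm_of_nonneg hτ.le]
      calc τ * ‖e‖ ≤ (δ / (2 * (‖e‖ + 1))) * (‖e‖ + 1) := by
            gcongr
            linarith
        _ = δ / 2 := by field_simp
    set w := τ • e with hw
    have hρ0 : ∀ t, 0 ≤ ρ t := fun t => φ.nonneg_normed t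
    have hρs : ∀ t, ρ t ≠ 0 → ‖t‖ ≤ δ / 2 := by
      intro t ht
      have : t ∈ Function.support (φ.normed volume) := ht
      rw [φ.support_normed_eq, hφr, mem_ball_zero_iff] at this
      exact this.le.trans (min_le_left _ _)
    -- the joint function
    let F : ℝ → Cn n → ℝ := fun θ t => ρ t * g (x + circleMap 0 1 θ • w - t)
    have hFi : Integrable (Function.uncurry F)
        ((volume.restrict (Set.uIoc 0 (2 * Real.pi))).prod volume) := by
      have h2 : Integrable (fun z : ℝ × Cn n => (C : ℝ) * ρ z.2)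
          ((volume.restrict (Set.uIoc 0 (2 * Real.pi))).prod volume) := by
        have h3 : Integrable (fun _ : ℝ => (C : ℝ))
          (volume.restrict (Set.uIoc 0 (2 * Real.pi))) := by
            rw [Set.uIoc_of_le (by positivity)]
            exact integrable_const _
        exact h3.mul_prod (φ.integrable_normed)
      refine h2.mono' ?_ (Eventually.of_forall fun z => ?_)
      · apply Measurable.aestronglyMeasurable
        apply Measurable.mul
        · exact φ.continuous_normed.measurable.comp measurable_snd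
        · apply hgm.comp
          apply Continuous.measurable
          have : Continuous (circleMap 0 1) := continuous_circleMap 0 1
          fun_prop
      · show |ρ z.2 * g _| ≤ _
        rw [abs_mul, abs_of_nonneg (hρ0 _), mul_comm]
        exact mul_le_mul_of_nonneg_right (hC _) (hρ0 _)
    have hswap := intervalIntegral_integral_swap hFi
    have hR : Real.circleAverage (fun ζ : ℂ => v (x + ζ • w)) 0 1 =
        ∫ t, ρ t * Real.circleAverage (fun ζ : ℂ => g (x + ζ • w - t)) 0 1 := by
      unfold Real.circleAverage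
      show (2 * Real.pi)⁻¹ • ∫ θ in (0:ℝ)..2 * Real.pi, ∫ t, F θ t = _
      rw [hswap, ← integral_smul]
      congr 1
      ext t
      show (2 * Real.pi)⁻¹ * ∫ θ in (0:ℝ)..2 * Real.pi, ρ t * g (x + circleMap 0 1 θ • w - t) =
        ρ t * ((2 * Real.pi)⁻¹ * ∫ θ in (0:ℝ)..2 * Real.pi, g (x + circleMap 0 1 θ • w - t))
      rw [intervalIntegral.integral_const_mul]
      ring
    rw [hR]
    have hBi : Integrable (fun t => ρ t * Real.circleAverage (fun ζ : ℂ => g (x + ζ • w - t)) 0 1)
        volume := by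
      have h2 := hFi.integral_prod_right
      have h3 := h2.const_mul ((2 * Real.pi)⁻¹)
      refine h3.congr (Eventually.of_forall fun t => ?_)
      show (2 * Real.pi)⁻¹ * ∫ θ in Set.uIoc 0 (2 * Real.pi), ρ t * g (x + circleMap 0 1 θ • w - t) =
        ρ t * ((2 * Real.pi)⁻¹ * ∫ θ in (0:ℝ)..(2 * Real.pi), g (x + circleMap 0 1 θ • w - t))
      rw [intervalIntegral.integral_of_le (by positivity), Set.uIoc_of_le (by positivity),
        integral_const_mul]
      ring
    have hAi : Integrable (fun t => ρ t * g (x - t)) volume := by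
      have h2 : Integrable (fun t => C * ρ t) volume := φ.integrable_normed.const_mul C
      refine h2.mono' ?_ (Eventually.of_forall fun t => ?_)
      · apply Measurable.aestronglyMeasurable
        apply Measurable.mul
        · exact φ.continuous_normed.measurable
        · exact hgm.comp (by fun_prop)
      · show |ρ t * g _| ≤ _
        rw [abs_mul, abs_of_nonneg (hρ0 _), mul_comm]
        exact mul_le_mul_of_nonneg_right (hC _) (hρ0 _)
    apply integral_mono hAi hBi
    intro t
    show ρ t * g (x - t) ≤ ρ t * Real.circleAverage (fun ζ : ℂ => g (x + ζ • w - t)) 0 1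
    by_cases ht : ρ t = 0
    · rw [ht]; simp
    apply mul_le_mul_of_nonneg_left _ (hρ0 t)
    have ht' := hρs t ht
    have hin : ∀ ζ : ℂ, ‖ζ‖ ≤ 1 → x - t + ζ • w ∈ cthickening δ K := by
      intro ζ hζ
      have h2 : ‖-t + ζ • w‖ ≤ δ := by
        calc ‖-t + ζ • w‖ ≤ ‖-t‖ + ‖ζ • w‖ := norm_add_le _ _
          _ ≤ δ / 2 + δ / 2 := by
              gcongr
              · rw [norm_neg]; exact ht'
              · rw [norm_smul]
                calc ‖ζ‖ * ‖w‖ ≤ 1 * ‖w‖ := by gcongr
                  _ ≤ δ / 2 := by rw [one_mul]; exact hτe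
          _ = δ := by ring
      have h3 := hmem x hx _ h2
      have h4 : x - t + ζ • w = x + (-t + ζ • w) := by abel
      rw [h4]
      exact h3
    have hxt : x - t ∈ cthickening δ K := by simpa using hin 0 (by simp)
    have h2 := hpsh (x - t) (hδM hxt) w (fun ζ hζ => hδM (hin ζ hζ))
    have h3 : g (x - t) = u (x - t) := Set.indicator_of_mem hxt _
    rw [h3]
    refine h2.trans_eq ?_
    apply Real.circleAverage_congr_sphere
    intro ζ hζ
    have hζ1 : ‖ζ‖ = 1 := by simpa using hζ
    have h4 : g (x - t + ζ • w) = u (x - t + ζ • w) := Set.indicator_of_mem (hin ζ hζ1.le) _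
    show u (x - t + ζ • w) = g (x + ζ • w - t)
    rw [← h4]
    congr 1
    abel

end Pool.Agent.Helper31.Lin
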